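import Mathlib

namespace Pool.Agent.Results.MP_bfcf3a_al.RealClosureEq

/-- The closure of a permutation group `G` on `Ω` over a field `F`: all permutations `σ` with
`W σ = W` for every subspace `W` of the permutation module `Ω →₀ F` which is a submodule for `G`.
Here `Finsupp.lmapDomain F F σ` is the linear map which sends the basis vector of `x` to the
basis vector of `σ x`. -/
def fieldClosure (F : Type*) [Field F] {Ω : Type*} (G : Subgroup (Equiv.Perm Ω)) :
    Set (Equiv.Perm Ω) :=
  {σ | ∀ W : Submodule F (Ω →₀ F),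
    (∀ g ∈ G, ∀ w ∈ W, Finsupp.lmapDomain F F g w ∈ W) →
      W.map (Finsupp.lmapDomain F F σ) = W}

/-- The orbit of a subset `s` of `Ω` under `G`. -/
def setOrbit {Ω : Type*} (G : Subgroup (Equiv.Perm Ω)) (s : Set Ω) : Set (Set Ω) :=
  {t | ∃ g ∈ G, t = g '' s}

/-- The strong 2-closure of `G`: all permutations which map each `G`-orbit on the 2-element
subsets of `Ω` onto itself. -/
def strongTwoClosure {Ω : Type*} (G : Subgroup (Equiv.Perm Ω)) : Set (Equiv.Perm Ω) :=
  {σ | ∀ s : Set Ω, s.ncard = 2 → (fun t : Set Ω => σ '' t) '' (setOrbit G s) = setOrbit G s}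

section pairs

variable {Ω : Type*} {G : Subgroup (Equiv.Perm Ω)} {σ : Equiv.Perm Ω}

/-- The pair form of membership in the strong 2-closure. -/
theorem pair_of_mem (hσ : σ ∈ strongTwoClosure G) {x y : Ω} (hxy : x ≠ y) :
    ∃ g ∈ G, (σ x = g x ∧ σ y = g y) ∨ (σ x = g y ∧ σ y = g x) := by
  have h := hσ {x, y} (Set.ncard_pair hxy)
  have h1 : (σ '' ({x, y} : Set Ω)) ∈ setOrbit G ({x, y} : Set Ω) := by
    rw [← h]
    refine ⟨{x, y}, ⟨1, G.one_mem, by simp⟩, rfl⟩
  obtain ⟨g, hg, hgs⟩ := h1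
  refine ⟨g, hg, ?_⟩
  rw [Set.image_pair, Set.image_pair] at hgs
  have := Set.pair_eq_pair_iff.mp hgs
  exact this

/-- If `Ω` has at least three points, then an element of the strong 2-closure maps each
point into its own `G`-orbit. -/
theorem point_of_mem [Finite Ω] (hΩ : 3 ≤ Nat.card Ω) (hσ : σ ∈ strongTwoClosure G) (x : Ω) :
    ∃ g ∈ G, σ x = g x := by
  by_contra hcon
  push Not at hcon
  -- every other point is in the orbit of `σ x` and is mapped to the orbit of `x`
  have key : ∀ y, x ≠ y → ∃ g ∈ G, σ x = g y ∧ σ y = g x := by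
    intro y hxy
    obtain ⟨g, hg, h | h⟩ := pair_of_mem hσ hxy
    · exact absurd h.1 (hcon g hg)
    · exact ⟨g, hg, h⟩
  have : ∃ y z : Ω, x ≠ y ∧ x ≠ z ∧ y ≠ z := by
    have := Fintype.ofFinite Ω
    rw [Nat.card_eq_fintype_card] at hΩ
    obtain ⟨y, z, hy, hz, hyz⟩ : ∃ y z : Ω, y ≠ x ∧ z ≠ x ∧ y ≠ z := by
      classical
      have hc : 1 < (Finset.univ.erase x : Finset Ω).card := by
        rw [Finset.card_erase_of_mem (Finset.mem_univ x), Finset.card_univ]
        omega
      obtain ⟨y, hy, z, hz, hyz⟩ := Finset.one_lt_card.mp hc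
      exact ⟨y, z, Finset.ne_of_mem_erase hy, Finset.ne_of_mem_erase hz, hyz⟩
    exact ⟨y, z, hy.symm, hz.symm, hyz⟩
  obtain ⟨y, z, hxy, hxz, hyz⟩ := this
  obtain ⟨g, hg, hg1, hg2⟩ := key y hxy
  obtain ⟨k, hk, hk1, hk2⟩ := key z hxz
  obtain ⟨h, hh, h' | h'⟩ := pair_of_mem hσ hyz
  · -- `σ y = h y`, `σ y = g x`, `σ x = g y`
    refine hcon (g * h⁻¹ * g) (G.mul_mem (G.mul_mem hg (G.inv_mem hh)) hg) ?_
    have : y = h⁻¹ (g x) := by rw [← hg2, h'.1]; simp
    rw [hg1]
    conv_lhs => rw [this]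
    rfl
  · -- `σ y = h z`, `σ y = g x`, `σ x = k z`
    refine hcon (k * h⁻¹ * g) (G.mul_mem (G.mul_mem hk (G.inv_mem hh)) hg) ?_
    have : z = h⁻¹ (g x) := by rw [← hg2, h'.1]; simp
    rw [hk1]
    conv_lhs => rw [this]
    rfl

/-- A symmetric kernel invariant under `G` is invariant under the strong 2-closure. -/
theorem kernel_invariant [Finite Ω] (hΩ : 3 ≤ Nat.card Ω) (hσ : σ ∈ strongTwoClosure G)
    (K : Ω → Ω → ℝ) (hsymm : ∀ x y, K x y = K y x)
    (hK : ∀ g ∈ G, ∀ x y, K (g x) (g y) = K x y) (x y : Ω) :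
    K (σ x) (σ y) = K x y := by
  by_cases hxy : x = y
  · subst hxy
    obtain ⟨g, hg, h⟩ := point_of_mem hΩ hσ x
    rw [h, hK g hg]
  · obtain ⟨g, hg, h | h⟩ := pair_of_mem hσ hxy
    · rw [h.1, h.2, hK g hg]
    · rw [h.1, h.2, hK g hg, hsymm]

end pairs

section linear

variable {Ω : Type*} [Fintype Ω] [DecidableEq Ω]

/-- The isometry of Euclidean space permuting the basis vectors. -/
noncomputable def iso (σ : Equiv.Perm Ω) : EuclideanSpace ℝ Ω ≃ₗᵢ[ℝ] EuclideanSpace ℝ Ω :=
  LinearIsometryEquiv.piLpCongrLeft 2 ℝ ℝ σ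

theorem iso_single (σ : Equiv.Perm Ω) (x : Ω) (r : ℝ) :
    iso σ (EuclideanSpace.single x r) = EuclideanSpace.single (σ x) r :=
  EuclideanSpace.piLpCongrLeft_single σ x r

theorem iso_apply (σ : Equiv.Perm Ω) (v : EuclideanSpace ℝ Ω) (x : Ω) :
    iso σ v (σ x) = v x := by
  simp [iso]

/-- The linear equivalence between the permutation module and Euclidean space. -/
noncomputable def toE : (Ω →₀ ℝ) ≃ₗ[ℝ] EuclideanSpace ℝ Ω :=
  (Finsupp.linearEquivFunOnFinite ℝ ℝ Ω).trans (WithLp.linearEquiv 2 ℝ (Ω → ℝ)).symm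

theorem toE_apply (w : Ω →₀ ℝ) (x : Ω) : toE w x = w x := rfl

theorem toE_perm (σ : Equiv.Perm Ω) (w : Ω →₀ ℝ) :
    toE (Finsupp.lmapDomain ℝ ℝ σ w) = iso σ (toE w) := by
  ext x
  obtain ⟨y, rfl⟩ := σ.surjective x
  rw [iso_apply, toE_apply, toE_apply]
  exact Finsupp.mapDomain_apply σ.injective w y

/-- The Euclidean form of the real closure condition. -/
theorem mem_realClosure_iff (G : Subgroup (Equiv.Perm Ω)) (σ : Equiv.Perm Ω) :
    σ ∈ fieldClosure ℝ G ↔ ∀ W : Submodule ℝ (EuclideanSpace ℝ Ω),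
      (∀ g ∈ G, ∀ w ∈ W, iso g w ∈ W) → ∀ w ∈ W, iso σ w ∈ W := by
  constructor
  · intro h W hW w hw
    have h1 := h (W.comap toE.toLinearMap) (by
      intro g hg v hv
      rw [Submodule.mem_comap] at hv ⊢
      have : toE.toLinearMap (Finsupp.lmapDomain ℝ ℝ g v) = iso g (toE v) := toE_perm g v
      rw [this]
      exact hW g hg _ hv)
    have h2 : Finsupp.lmapDomain ℝ ℝ σ (toE.symm w) ∈ W.comap toE.toLinearMap := by
      rw [← h1]
      refine Submodule.mem_map_of_mem ?_
      rw [Submodule.mem_comap]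
      simpa using hw
    rw [Submodule.mem_comap] at h2
    have : toE.toLinearMap (Finsupp.lmapDomain ℝ ℝ σ (toE.symm w)) = iso σ w := by
      have := toE_perm σ (toE.symm w)
      rw [LinearEquiv.apply_symm_apply] at this
      exact this
    rwa [this] at h2
  · intro h W hW
    have hle : W.map (Finsupp.lmapDomain ℝ ℝ σ) ≤ W := by
      rintro _ ⟨w, hw, rfl⟩
      have := h (W.map toE.toLinearMap) (by
        rintro g hg _ ⟨v, hv, rfl⟩
        refine ⟨Finsupp.lmapDomain ℝ ℝ g v, hW g hg v hv, toE_perm g v⟩)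
        (toE w) ⟨w, hw, rfl⟩
      rw [← toE_perm] at this
      obtain ⟨v, hv, hv'⟩ := this
      have : v = Finsupp.lmapDomain ℝ ℝ σ w := toE.injective hv'
      rw [← this]; exact hv
    have hinj : Function.Injective (Finsupp.lmapDomain ℝ ℝ σ : (Ω →₀ ℝ) →ₗ[ℝ] (Ω →₀ ℝ)) :=
      Finsupp.mapDomain_injective σ.injective
    refine Submodule.eq_of_le_of_finrank_eq hle ?_
    exact (Submodule.equivMapOfInjective _ hinj W).finrank_eq.symm

/-- The kernel of the orthogonal projection onto an invariant subspace is invariant. -/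
theorem proj_comm (W : Submodule ℝ (EuclideanSpace ℝ Ω)) (g : Equiv.Perm Ω)
    (hW : ∀ w ∈ W, iso g w ∈ W) (v : EuclideanSpace ℝ Ω) :
    W.starProjection (iso g v) = iso g (W.starProjection v) := by
  have hmap : W.map ((iso g).toLinearEquiv : EuclideanSpace ℝ Ω →ₗ[ℝ] EuclideanSpace ℝ Ω) = W := by
    refine Submodule.eq_of_le_of_finrank_eq ?_ ?_
    · rintro _ ⟨w, hw, rfl⟩
      exact hW w hw
    · exact LinearEquiv.finrank_map_eq _ _
  have h := Submodule.starProjection_map_apply (iso g) W (iso g v)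
  rw [LinearIsometryEquiv.symm_apply_apply] at h
  rw [← h]
  congr 1
  simp only [hmap]

theorem strong_subset_real (G : Subgroup (Equiv.Perm Ω)) (hΩ : 3 ≤ Nat.card Ω)
    {σ : Equiv.Perm Ω} (hσ : σ ∈ strongTwoClosure G) : σ ∈ fieldClosure ℝ G := by
  rw [mem_realClosure_iff]
  intro W hW w hw
  set e : Ω → EuclideanSpace ℝ Ω := fun x => EuclideanSpace.single x (1 : ℝ) with he
  have hcoord : ∀ (x : Ω) (v : EuclideanSpace ℝ Ω), inner ℝ (e x) v = v x := by
    intro x v
    simp [he, EuclideanSpace.inner_single_left]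
  let K : Ω → Ω → ℝ := fun x y => inner ℝ (e x) (W.starProjection (e y))
  have hsymm : ∀ x y, K x y = K y x := by
    intro x y
    change inner ℝ (e x) (W.starProjection (e y)) = inner ℝ (e y) (W.starProjection (e x))
    rw [← Submodule.inner_starProjection_left_eq_right, real_inner_comm]
  have hiso : ∀ (g : Equiv.Perm Ω) (x : Ω), e (g x) = iso g (e x) := by
    intro g x
    rw [he]; exact (iso_single g x 1).symm
  have hK : ∀ g ∈ G, ∀ x y, K (g x) (g y) = K x y := by
    intro g hg x y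
    change inner ℝ (e (g x)) (W.starProjection (e (g y))) = inner ℝ (e x) (W.starProjection (e y))
    rw [hiso, hiso, proj_comm W g (hW g hg), LinearIsometryEquiv.inner_map_map]
  have hKσ := kernel_invariant hΩ hσ K hsymm hK
  have hbasis : ∀ y, W.starProjection (iso σ (e y)) = iso σ (W.starProjection (e y)) := by
    intro y
    ext x
    obtain ⟨x, rfl⟩ := σ.surjective x
    rw [iso_apply, ← hcoord, ← hcoord, ← hiso]
    exact hKσ x y
  have hall : ∀ v, W.starProjection (iso σ v) = iso σ (W.starProjection v) := by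
    intro v
    have hlin : (W.starProjection.toLinearMap ∘ₗ (iso σ).toLinearEquiv.toLinearMap)
        = ((iso σ).toLinearEquiv.toLinearMap ∘ₗ W.starProjection.toLinearMap) := by
      refine (EuclideanSpace.basisFun Ω ℝ).toBasis.ext ?_
      intro y
      simp only [OrthonormalBasis.coe_toBasis, EuclideanSpace.basisFun_apply]
      exact hbasis y
    exact LinearMap.congr_fun hlin v
  have : iso σ w = W.starProjection (iso σ w) := by
    rw [hall, Submodule.starProjection_eq_self_iff.mpr hw]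
  rw [this]
  exact Submodule.starProjection_apply_mem W _

theorem real_subset_strong (G : Subgroup (Equiv.Perm Ω))
    {σ : Equiv.Perm Ω} (hσ : σ ∈ fieldClosure ℝ G) : σ ∈ strongTwoClosure G := by
  rw [mem_realClosure_iff] at hσ
  intro s hs
  classical
  let K : Ω → Ω → ℝ := fun x y => if ({x, y} : Set Ω) ∈ setOrbit G s then 1 else 0
  have hsymm : ∀ x y, K x y = K y x := by
    intro x y
    simp only [K, Set.pair_comm]
  have horb : ∀ g ∈ G, ∀ t : Set Ω, g '' t ∈ setOrbit G s ↔ t ∈ setOrbit G s := by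
    intro g hg t
    constructor
    · rintro ⟨h, hh, hh'⟩
      refine ⟨g⁻¹ * h, G.mul_mem (G.inv_mem hg) hh, ?_⟩
      have : (g⁻¹ : Equiv.Perm Ω) '' (g '' t) = (g⁻¹ : Equiv.Perm Ω) '' (h '' s) := by rw [hh']
      rw [← Set.image_comp, ← Set.image_comp] at this
      have h1 : ((g⁻¹ : Equiv.Perm Ω) : Ω → Ω) ∘ (g : Ω → Ω) = id := by
        funext x; simp
      rw [h1, Set.image_id] at this
      rw [this]; rfl
    · rintro ⟨h, hh, rfl⟩
      refine ⟨g * h, G.mul_mem hg hh, ?_⟩
      rw [← Set.image_comp]; rfl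
  have hK : ∀ g ∈ G, ∀ x y, K (g x) (g y) = K x y := by
    intro g hg x y
    have := horb g hg {x, y}
    rw [Set.image_pair] at this
    simp only [K, this]
  let T : EuclideanSpace ℝ Ω →ₗ[ℝ] EuclideanSpace ℝ Ω := Matrix.toEuclideanLin (Matrix.of K)
  have hT : T.IsSymmetric := by
    rw [Matrix.isSymmetric_toEuclideanLin_iff]
    ext x y
    simp [Matrix.conjTranspose_apply, hsymm x y]
  have hTapply : ∀ v x, T v x = ∑ y, K x y * v y := by
    intro v x
    simp [T, Matrix.toLpLin_apply, Matrix.mulVec, dotProduct]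
  have hTcomm : ∀ g : Equiv.Perm Ω, (∀ x y, K (g x) (g y) = K x y) → ∀ v,
      T (iso g v) = iso g (T v) := by
    intro g hg v
    ext x
    obtain ⟨x, rfl⟩ := g.surjective x
    rw [iso_apply, hTapply, hTapply, ← Equiv.sum_comp g]
    refine Finset.sum_congr rfl ?_
    intro y _
    rw [hg, iso_apply]
  -- eigenspaces of `T` are submodules for `G`
  have heig : ∀ μ : ℝ, ∀ v ∈ Module.End.eigenspace T μ, iso σ v ∈ Module.End.eigenspace T μ := by
    intro μ
    refine hσ (Module.End.eigenspace T μ) ?_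
    intro g hg w hw
    rw [Module.End.mem_eigenspace_iff] at hw ⊢
    rw [hTcomm g (hK g hg), hw, map_smul]
  have hTσ : ∀ v, T (iso σ v) = iso σ (T v) := by
    let D : Submodule ℝ (EuclideanSpace ℝ Ω) :=
      LinearMap.ker (T ∘ₗ (iso σ).toLinearEquiv.toLinearMap
        - (iso σ).toLinearEquiv.toLinearMap ∘ₗ T)
    have hD : (⨆ μ : ℝ, Module.End.eigenspace T μ) ≤ D := by
      refine iSup_le ?_
      intro μ v hv
      rw [LinearMap.mem_ker]
      have h1 := heig μ v hv
      rw [Module.End.mem_eigenspace_iff] at h1 hv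
      change T (iso σ v) - iso σ (T v) = 0
      rw [h1, hv, map_smul, sub_self]
    have htop : (⨆ μ : ℝ, Module.End.eigenspace T μ) = ⊤ := by
      rw [← Submodule.orthogonal_eq_bot_iff]
      exact hT.orthogonalComplement_iSup_eigenspaces_eq_bot
    intro v
    have : v ∈ D := hD (htop ▸ Submodule.mem_top)
    rw [LinearMap.mem_ker] at this
    exact sub_eq_zero.mp this
  have hKσ : ∀ x y, K (σ x) (σ y) = K x y := by
    intro x y
    have h := congrArg (fun u : EuclideanSpace ℝ Ω => u (σ x))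
      (hTσ (EuclideanSpace.single y (1 : ℝ)))
    simp only at h
    rw [iso_single, iso_apply, hTapply, hTapply] at h
    simpa [Pi.single_apply] using h
  have hpair : ∀ x y, ({σ x, σ y} : Set Ω) ∈ setOrbit G s ↔ ({x, y} : Set Ω) ∈ setOrbit G s := by
    intro x y
    have h := hKσ x y
    simp only [K] at h
    by_cases h1 : ({σ x, σ y} : Set Ω) ∈ setOrbit G s <;>
      by_cases h2 : ({x, y} : Set Ω) ∈ setOrbit G s <;> simp [h1, h2] at h ⊢
  have hcard : ∀ t ∈ setOrbit G s, ∃ x y, t = {x, y} := by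
    rintro _ ⟨g, _, rfl⟩
    have : (g '' s).ncard = 2 := by
      rw [Set.ncard_image_of_injective s g.injective, hs]
    obtain ⟨x, y, _, h⟩ := Set.ncard_eq_two.mp this
    exact ⟨x, y, h⟩
  apply Set.Subset.antisymm
  · rintro _ ⟨t, ht, rfl⟩
    obtain ⟨x, y, rfl⟩ := hcard t ht
    change σ '' {x, y} ∈ setOrbit G s
    rw [Set.image_pair]
    exact (hpair x y).mpr ht
  · intro t ht
    obtain ⟨x, y, rfl⟩ := hcard t ht
    obtain ⟨x, rfl⟩ := σ.surjective x
    obtain ⟨y, rfl⟩ := σ.surjective y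
    refine ⟨{x, y}, (hpair x y).mp ht, ?_⟩
    change σ '' {x, y} = _
    rw [Set.image_pair]

end linear

/-- For every finite set `Ω` with at least three points and every permutation group `G` on `Ω`,
the real closure of `G` equals the strong 2-closure of `G`. -/
theorem result {Ω : Type*} [Finite Ω] (hΩ : 3 ≤ Nat.card Ω) (G : Subgroup (Equiv.Perm Ω)) :
    fieldClosure ℝ G = strongTwoClosure G := by
  classical
  have := Fintype.ofFinite Ω
  apply Set.Subset.antisymm
  · intro σ hσ
    exact real_subset_strong G hσ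
  · intro σ hσ
    exact strong_subset_real G hΩ hσ

end Pool.Agent.Results.MP_bfcf3a_al.RealClosureEq
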